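import Pool.Agent.P8H97.FE.Stm3

/-!
# Project FE (helper97), package UP: the second moment for three term progressions
-/

set_option autoImplicit false

namespace Pool.Agent.P8H88.FE

open Finset Filter MeasureTheory Topology
open Pool.Agent.Y851.DK (sg sgn P_SV P_AVG)
open Pool.Agent.P8H97.FE

theorem sg_zero : sg 0 = 0 := by simp [sg]

theorem sg_nonneg (m : ℕ) : 0 ≤ sg m := sum_nonneg fun _ _ => by positivity

theorem sg_two_mul {d : ℕ} (hd : 1 ≤ d) : sg (2 * d) ≤ sg d + 1 / 2 := by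
  unfold sg
  rw [Nat.primeFactors_mul two_ne_zero (by omega)]
  have h1 := sum_union_inter (s₁ := (2 : ℕ).primeFactors) (s₂ := d.primeFactors)
    (f := fun p : ℕ => (1 : ℝ) / p)
  have h2 : 0 ≤ ∑ p ∈ (2 : ℕ).primeFactors ∩ d.primeFactors, (1 : ℝ) / p :=
    sum_nonneg fun _ _ => by positivity
  have h3 : ∑ p ∈ (2 : ℕ).primeFactors, (1 : ℝ) / p = 1 / 2 := by
    rw [Nat.Prime.primeFactors Nat.prime_two, sum_singleton]
    norm_num
  linarith

theorem sgn_one (m : ℕ) : sgn 1 m = sg m := by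
  unfold sgn sg
  congr 1
  apply filter_true_of_mem
  intro p hp h
  exact (Nat.prime_of_mem_primeFactors hp).one_lt.ne' (Nat.dvd_one.1 h)

theorem tri_eq (N : ℕ) (d : ℕ) : tri N d = cnt N ![d, 2 * d] := by
  unfold tri cnt
  congr 1
  apply filter_congr
  intro m _
  rw [Fin.forall_fin_two]
  rfl

theorem S_le {d : ℕ} (hd : 1 ≤ d) : S ![d, 2 * d] ≤ 6 * sg d + 1 := by
  unfold S
  have h1 := sg_two_mul hd
  have e1 : (((2 * d : ℕ) : ℤ) - (d : ℤ)).natAbs = d := by omega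
  have e2 : ((d : ℤ) - ((2 * d : ℕ) : ℤ)).natAbs = d := by omega
  simp only [Fin.sum_univ_two, Matrix.cons_val_zero, Matrix.cons_val_one, sub_self, Int.natAbs_zero,
    sg_zero, e1, e2]
  linarith

theorem up : P_AVG → S_SVB → S_UP := by
  intro hA hS
  obtain ⟨C0, hC0, h0⟩ := hS 2
  obtain ⟨C1, hC1, h1⟩ := hA (12 * C0) 1 (by positivity) one_pos
  refine ⟨C0 ^ 2 * Real.exp (2 * C0) * C1, ?_, ?_⟩
  · have h2 : 1 ≤ Real.exp (2 * C0) := Real.one_le_exp (by linarith)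
    have h3 : 1 ≤ C0 ^ 2 := one_le_pow₀ hC0
    exact one_le_mul_of_one_le_of_one_le (one_le_mul_of_one_le_of_one_le h3 h2) hC1
  filter_upwards [h0, tendsto_natCast_atTop_atTop.eventually h1, eventually_ge_atTop 1] with N hN0 hN1 hN
  have hNR : (1 : ℝ) ≤ N := by exact_mod_cast hN
  have h2 := hN1 N (by rw [Real.rpow_one]) le_rfl 1 0 le_rfl (by push_cast; nlinarith)
    (by push_cast; positivity)
  have h3 : ∑ x ∈ Icc 1 N, Real.exp (12 * C0 * sg x) ≤ C1 * N := by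
    refine le_trans (le_of_eq ?_) h2
    refine sum_congr rfl fun x _ => ?_
    rw [sgn_one]
    congr 3
    simp
  have h4 : ∀ d ∈ Icc 1 N, (tri N d : ℝ) ^ 2 ≤
      C0 ^ 2 * Real.exp (2 * C0) * R 2 N ^ 2 * Real.exp (12 * C0 * sg d) := by
    intro d hd
    rw [mem_Icc] at hd
    have hinj : Function.Injective ![d, 2 * d] := by
      intro i j hij
      fin_cases i <;> fin_cases j <;> simp at hij ⊢ <;> omega
    have h5 := hN0 ![d, 2 * d] hinj (by
      rw [Fin.forall_fin_two]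
      exact ⟨hd.1, by show 1 ≤ 2 * d; omega⟩)
    rw [← tri_eq] at h5
    have hR : 0 ≤ R 2 N := by
      unfold R
      have : 0 ≤ Real.log N := Real.log_nonneg hNR
      positivity
    have h6 : (tri N d : ℝ) ≤ C0 * Real.exp (C0 * (6 * sg d + 1)) * R 2 N := by
      refine h5.trans ?_
      apply mul_le_mul_of_nonneg_right _ hR
      apply mul_le_mul_of_nonneg_left _ (by linarith)
      exact Real.exp_le_exp.2 (mul_le_mul_of_nonneg_left (S_le hd.1) (by linarith))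
    calc (tri N d : ℝ) ^ 2 ≤ (C0 * Real.exp (C0 * (6 * sg d + 1)) * R 2 N) ^ 2 :=
          pow_le_pow_left₀ (Nat.cast_nonneg _) h6 2
      _ = C0 ^ 2 * (Real.exp (C0 * (6 * sg d + 1)) * Real.exp (C0 * (6 * sg d + 1))) * R 2 N ^ 2 := by
          ring
      _ = C0 ^ 2 * (Real.exp (2 * C0) * Real.exp (12 * C0 * sg d)) * R 2 N ^ 2 := by
          rw [← Real.exp_add, ← Real.exp_add]
          congr 3
          ring
      _ = _ := by ring
  have hC : 0 ≤ C0 ^ 2 * Real.exp (2 * C0) * R 2 N ^ 2 := by positivity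
  calc ∑ d ∈ Icc 1 N, (tri N d : ℝ) ^ 2 ≤
      ∑ d ∈ Icc 1 N, C0 ^ 2 * Real.exp (2 * C0) * R 2 N ^ 2 * Real.exp (12 * C0 * sg d) :=
        sum_le_sum h4
    _ = C0 ^ 2 * Real.exp (2 * C0) * R 2 N ^ 2 * ∑ d ∈ Icc 1 N, Real.exp (12 * C0 * sg d) := by
        rw [mul_sum]
    _ ≤ C0 ^ 2 * Real.exp (2 * C0) * R 2 N ^ 2 * (C1 * N) := mul_le_mul_of_nonneg_left h3 hC
    _ = C0 ^ 2 * Real.exp (2 * C0) * C1 * (N * (N / Real.log N ^ 3) ^ 2) := by
        unfold R
        ring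

end Pool.Agent.P8H88.FE
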